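import Pool.Agent.helper36.PT.Spec

set_option autoImplicit false

namespace Pool.Agent.PT

open Finset Pool.Agent.helper71.AA

theorem SGL_term (l : ℕ) (hl : 2 ≤ l) :
    Real.log l / (l - 1) ≤ Real.log l / l + 4 * (l : ℝ) ^ (-(3 / 2) : ℝ) := by
  have h2 : (2 : ℝ) ≤ l := by exact_mod_cast hl
  have h0 : (0 : ℝ) < l := by linarith
  have h1 : (0 : ℝ) < (l : ℝ) - 1 := by linarith
  have hlog : Real.log l ≤ 2 * (l : ℝ) ^ (1 / 2 : ℝ) := by
    have := Real.log_le_rpow_div h0.le (show (0 : ℝ) < 1 / 2 by norm_num)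
    linarith
  have e1 : Real.log l / (l - 1) = Real.log l / l + Real.log l / (l * (l - 1)) := by
    field_simp
    ring
  rw [e1]
  have h3 : Real.log l / (l * (l - 1)) ≤ (2 * (l : ℝ) ^ (1 / 2 : ℝ)) / (l * (l / 2)) := by
    apply div_le_div₀ (by positivity) hlog (by positivity)
    apply mul_le_mul_of_nonneg_left _ h0.le
    linarith
  have h4 : (2 * (l : ℝ) ^ (1 / 2 : ℝ)) / (l * (l / 2)) = 4 * (l : ℝ) ^ (-(3 / 2) : ℝ) := by
    have e2 : (l : ℝ) ^ (-(3 / 2) : ℝ) = (l : ℝ) ^ (1 / 2 : ℝ) / (l ^ 2) := by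
      rw [← Real.rpow_natCast, ← Real.rpow_sub h0]
      norm_num
    rw [e2]
    field_simp
    ring
  linarith

theorem SGL_inner : ∃ C : ℝ, 1 ≤ C ∧ ∀ (A : Finset ℕ) (g : ℕ) (x : ℝ), 1 ≤ g →
    (∀ l ∈ A, l.Prime ∧ x / g < l ∧ (l : ℝ) ≤ x) →
    ∑ l ∈ A, Real.log l / ((l : ℝ) - 1) ≤ Real.log g + C := by
  obtain ⟨C₀, hC₀, hm⟩ := mert_log
  have hsum : Summable (fun n : ℕ => 4 * (n : ℝ) ^ (-(3 / 2) : ℝ)) :=
    (Real.summable_nat_rpow.2 (by norm_num)).mul_left 4
  set C₁ := ∑' n : ℕ, 4 * (n : ℝ) ^ (-(3 / 2) : ℝ) with hC₁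
  have hC₁0 : 0 ≤ C₁ := tsum_nonneg fun n => by positivity
  refine ⟨1 + C₀ + C₁, by linarith, ?_⟩
  intro A g x hg hA
  have hg' : (1 : ℝ) ≤ g := by exact_mod_cast hg
  have hlg : 0 ≤ Real.log g := Real.log_nonneg hg'
  rcases A.eq_empty_or_nonempty with rfl | ⟨l₀, hl₀⟩
  · rw [sum_empty]
    linarith
  have hx : 1 ≤ x := by
    obtain ⟨hp, -, h⟩ := hA l₀ hl₀
    have : (2 : ℝ) ≤ l₀ := by exact_mod_cast hp.two_le
    linarith
  set y : ℝ := max 1 (x / g) with hy
  have hy1 : 1 ≤ y := le_max_left _ _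
  have hyx : y ≤ x := max_le hx (div_le_self (by linarith) hg')
  have hxy : x / y ≤ g := by
    rw [div_le_iff₀ (by linarith)]
    have : x / g ≤ y := le_max_right _ _
    rw [div_le_iff₀ (by linarith)] at this
    linarith
  have hm1 := (abs_le.1 (hm x y hy1 hyx)).2
  have hlxy : Real.log (x / y) ≤ Real.log g := Real.log_le_log (by positivity) hxy
  have hsub : A ⊆ (Ioc ⌊y⌋₊ ⌊x⌋₊).filter Nat.Prime := by
    intro l hl
    obtain ⟨hp, h1, h2⟩ := hA l hl
    rw [mem_filter, mem_Ioc]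
    refine ⟨⟨?_, Nat.le_floor h2⟩, hp⟩
    rw [Nat.floor_lt (by linarith)]
    apply max_lt _ h1
    have : (2 : ℝ) ≤ l := by exact_mod_cast hp.two_le
    linarith
  have s1 : ∑ l ∈ A, Real.log l / ((l : ℝ) - 1)
      ≤ ∑ l ∈ A, Real.log l / l + ∑ l ∈ A, 4 * (l : ℝ) ^ (-(3 / 2) : ℝ) := by
    rw [← sum_add_distrib]
    exact sum_le_sum fun l hl => SGL_term l (hA l hl).1.two_le
  have s2 : ∑ l ∈ A, Real.log l / l ≤ ∑ l ∈ (Ioc ⌊y⌋₊ ⌊x⌋₊).filter Nat.Prime, Real.log l / l := by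
    refine sum_le_sum_of_subset_of_nonneg hsub fun l hl _ => ?_
    have := (mem_filter.1 hl).2.one_le
    exact div_nonneg (Real.log_nonneg (by exact_mod_cast this)) (by positivity)
  have s3 : ∑ l ∈ A, 4 * (l : ℝ) ^ (-(3 / 2) : ℝ) ≤ C₁ :=
    hsum.sum_le_tsum A fun n _ => by positivity
  linarith

theorem SGL_pr_pos (K : Finset ℕ) (hK : ∀ l ∈ K, 2 ≤ l) : 0 < pr K := by
  unfold pr
  exact prod_pos fun l hl => by
    have := hK l hl
    have : 0 < l := by omega
    exact_mod_cast this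

theorem SGL_ph_pos (K : Finset ℕ) (hK : ∀ l ∈ K, 2 ≤ l) : 0 < ph K := by
  unfold ph
  exact prod_pos fun l hl => by
    have h := hK l hl
    have : (2 : ℝ) ≤ l := by exact_mod_cast h
    linarith

theorem SGL : SGL_stmt := by
  obtain ⟨C, hC, hin⟩ := SGL_inner
  refine ⟨C, hC, ?_⟩
  intro w Z hw hZ Q hQ R hR g hg
  set Q' := Q.erase g with hQ'
  have hmem : ∀ l ∈ Q, l.Prime ∧ l ≤ Z ∧ 2 ≤ l := by
    intro l hl
    have h := hQ hl
    rw [Qs, mem_filter, mem_Ioc] at h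
    exact ⟨h.2, h.1.2, h.2.two_le⟩
  have hmem' : ∀ l ∈ Q', l.Prime ∧ l ≤ Z ∧ 2 ≤ l := fun l hl => hmem l (mem_of_mem_erase hl)
  have hZ' : (2 : ℝ) ≤ Z := by exact_mod_cast hZ
  have hR4 : (4 : ℝ) ≤ R := by nlinarith
  have hR0 : (0 : ℝ) < R := by linarith
  have hlR : 0 < Real.log R := Real.log_pos (by linarith)
  obtain ⟨hgp, hgZ, hg2⟩ := hmem g hg
  have hg2' : (2 : ℝ) ≤ g := by exact_mod_cast hg2
  have hgZ' : (g : ℝ) ≤ Z := by exact_mod_cast hgZ
  have hg0 : (0 : ℝ) < g := by linarith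
  have hlgC : 0 ≤ Real.log g + C := by
    have : 0 ≤ Real.log g := Real.log_nonneg (by linarith)
    linarith
  have hphK : ∀ K ⊆ Q', 0 < ph K := fun K hK => SGL_ph_pos K fun l hl => (hmem' l (hK hl)).2.2
  have hprK : ∀ K ⊆ Q', 0 < pr K := fun K hK => SGL_pr_pos K fun l hl => (hmem' l (hK hl)).2.2
  -- the difference
  set S := Q'.powerset.filter (fun K => R / g < pr K ∧ pr K ≤ R) with hS
  have hdiff : Gs Q' R - Gs Q' (R / g) = ∑ K ∈ S, 1 / ph K := by
    have hsub : helper71.AA.Sub Q' (R / g) ⊆ helper71.AA.Sub Q' R := by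
      intro K hK
      rw [helper71.AA.Sub, mem_filter] at hK ⊢
      refine ⟨hK.1, hK.2.trans (div_le_self hR0.le (by linarith))⟩
    have h1 := sum_sdiff (f := fun K => 1 / ph K) hsub
    have h2 : helper71.AA.Sub Q' R \ helper71.AA.Sub Q' (R / g) = S := by
      ext K
      rw [mem_sdiff, helper71.AA.Sub, helper71.AA.Sub, mem_filter, mem_filter, hS, mem_filter]
      constructor
      · rintro ⟨⟨a, b⟩, c⟩
        refine ⟨a, ?_, b⟩
        by_contra h
        exact c ⟨a, not_lt.1 h⟩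
      · rintro ⟨a, b, c⟩
        exact ⟨⟨a, c⟩, fun h => absurd h.2 (not_le.2 b)⟩
    unfold Gs
    rw [h2] at h1
    linarith
  rw [hdiff]
  have hSm : ∀ K ∈ S, K ⊆ Q' ∧ R / g < pr K ∧ pr K ≤ R := by
    intro K hK
    rw [hS, mem_filter, mem_powerset] at hK
    exact hK
  -- logarithms
  have hlog : ∀ K ∈ S, 1 / ph K ≤ 2 / Real.log R * ∑ l ∈ K, Real.log l / ph K := by
    intro K hK
    obtain ⟨hKQ, h1, h2⟩ := hSm K hK
    have hp := hphK K hKQ
    have e1 : ∑ l ∈ K, Real.log l = Real.log (pr K) := by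
      unfold pr
      rw [Real.log_prod]
      intro l hl
      have := (hmem' l (hKQ hl)).2.2
      have : l ≠ 0 := by omega
      exact_mod_cast this
    have h3 : Real.log R / 2 ≤ Real.log (pr K) := by
      have hgR : (g : ℝ) ≤ Real.sqrt R := by
        apply Real.le_sqrt_of_sq_le
        nlinarith
      have h4 : Real.sqrt R ≤ pr K := by
        refine le_trans ?_ h1.le
        rw [le_div_iff₀ hg0]
        calc Real.sqrt R * g ≤ Real.sqrt R * Real.sqrt R :=
              mul_le_mul_of_nonneg_left hgR (Real.sqrt_nonneg _)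
          _ = R := Real.mul_self_sqrt hR0.le
      have h5 := Real.log_le_log (Real.sqrt_pos.2 hR0) h4
      rw [Real.log_sqrt hR0.le] at h5
      linarith
    rw [← sum_div, e1]
    rw [div_mul_div_comm, div_le_div_iff₀ hp (by positivity)]
    nlinarith
  -- the pairs
  set T := Q'.powerset.filter (fun H => R / (Z : ℝ) ^ 2 < pr H) with hT
  have hswap : ∑ K ∈ S, ∑ l ∈ K, Real.log l / ph K ≤
      ∑ H ∈ T, 1 / ph H * ∑ l ∈ Q'.filter (fun l : ℕ => R / pr H / g < (l : ℝ) ∧ (l : ℝ) ≤ R / pr H),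
        Real.log l / ((l : ℝ) - 1) := by
    have e1 : ∑ K ∈ S, ∑ l ∈ K, Real.log l / ph K
        = ∑ l ∈ Q', ∑ K ∈ S.filter (fun K => l ∈ K), Real.log l / ph K := by
      refine sum_comm' ?_
      intro K l
      constructor
      · rintro ⟨a, b⟩
        exact ⟨mem_filter.2 ⟨a, b⟩, (hSm K a).1 b⟩
      · rintro ⟨a, -⟩
        exact mem_filter.1 a
    have e2 : ∑ H ∈ T, 1 / ph H * ∑ l ∈ Q'.filter
          (fun l : ℕ => R / pr H / g < (l : ℝ) ∧ (l : ℝ) ≤ R / pr H), Real.log l / ((l : ℝ) - 1)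
        = ∑ l ∈ Q', ∑ H ∈ T.filter (fun H => R / pr H / g < (l : ℝ) ∧ (l : ℝ) ≤ R / pr H),
          1 / ph H * (Real.log l / ((l : ℝ) - 1)) := by
      simp only [mul_sum]
      refine sum_comm' ?_
      intro H l
      simp only [mem_filter]
      tauto
    rw [e1, e2]
    refine sum_le_sum fun l hl => ?_
    obtain ⟨hlp, hlZ, hl2⟩ := hmem' l hl
    have hl2' : (2 : ℝ) ≤ l := by exact_mod_cast hl2
    have hlZ' : (l : ℝ) ≤ Z := by exact_mod_cast hlZ
    have hl0 : (0 : ℝ) < l := by linarith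
    have hll : 0 ≤ Real.log l := Real.log_nonneg (by linarith)
    have hinj : Set.InjOn (fun K : Finset ℕ => K.erase l) (S.filter (fun K => l ∈ K)) := by
      intro K hK K' hK' h
      have hK := (mem_filter.1 hK)
      have hK' := (mem_filter.1 hK')
      have h' : K.erase l = K'.erase l := h
      rw [← insert_erase hK.2, h', insert_erase hK'.2]
    have hval : ∀ K ∈ S.filter (fun K => l ∈ K),
        Real.log l / ph K = 1 / ph (K.erase l) * (Real.log l / ((l : ℝ) - 1)) := by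
      intro K hK
      rw [mem_filter] at hK
      have h1 : ph K = ((l : ℝ) - 1) * ph (K.erase l) := by
        unfold ph
        rw [mul_prod_erase K (fun l : ℕ => (l : ℝ) - 1) hK.2]
      have h2 := hphK (K.erase l) ((erase_subset l K).trans (hSm K hK.1).1)
      have h3 : (0 : ℝ) < (l : ℝ) - 1 := by linarith
      rw [h1]
      field_simp
    rw [sum_congr rfl hval, ← sum_image (f := fun H => 1 / ph H * (Real.log l / ((l : ℝ) - 1))) hinj]
    refine sum_le_sum_of_subset_of_nonneg ?_ ?_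
    · intro H hH
      rw [mem_image] at hH
      obtain ⟨K, hK, rfl⟩ := hH
      rw [mem_filter] at hK
      obtain ⟨hKQ, h1, h2⟩ := hSm K hK.1
      have hKe : K.erase l ⊆ Q' := (erase_subset l K).trans hKQ
      have hp := hprK (K.erase l) hKe
      have h3 : pr K = (l : ℝ) * pr (K.erase l) := by
        unfold pr
        rw [mul_prod_erase K (fun l : ℕ => (l : ℝ)) hK.2]
      rw [h3] at h1 h2
      have h4 : R < l * pr (K.erase l) * g := by rwa [div_lt_iff₀ hg0] at h1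
      rw [mem_filter, hT, mem_filter, mem_powerset]
      refine ⟨⟨hKe, ?_⟩, ?_, ?_⟩
      · rw [div_lt_iff₀ (by positivity)]
        have h5 : (l : ℝ) * g ≤ (Z : ℝ) ^ 2 := by nlinarith
        calc R < l * pr (K.erase l) * g := h4
          _ = pr (K.erase l) * (l * g) := by ring
          _ ≤ pr (K.erase l) * (Z : ℝ) ^ 2 := mul_le_mul_of_nonneg_left h5 hp.le
      · rw [div_div, div_lt_iff₀ (by positivity)]
        calc R < l * pr (K.erase l) * g := h4
          _ = l * (pr (K.erase l) * g) := by ring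
      · rw [le_div_iff₀ hp]
        exact h2
    · intro H hH _
      rw [mem_filter, hT, mem_filter, mem_powerset] at hH
      have := hphK H hH.1.1
      have h3 : (0 : ℝ) < (l : ℝ) - 1 := by linarith
      positivity
  have hinner : ∀ H ∈ T, ∑ l ∈ Q'.filter (fun l : ℕ => R / pr H / g < (l : ℝ) ∧ (l : ℝ) ≤ R / pr H),
        Real.log l / ((l : ℝ) - 1) ≤ Real.log g + C := by
    intro H hH
    refine hin _ g (R / pr H) (by omega) ?_
    intro l hl
    rw [mem_filter] at hl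
    exact ⟨(hmem' l hl.1).1, hl.2.1, hl.2.2⟩
  have hTm : ∀ H ∈ T, 0 < ph H := by
    intro H hH
    rw [hT, mem_filter, mem_powerset] at hH
    exact hphK H hH.1
  have hTs : ∑ H ∈ T, 1 / ph H ≤
      ∑ H ∈ Q.powerset.filter (fun H => R / (Z : ℝ) ^ 2 < pr H), 1 / ph H := by
    refine sum_le_sum_of_subset_of_nonneg ?_ ?_
    · intro H hH
      rw [hT, mem_filter, mem_powerset] at hH
      rw [mem_filter, mem_powerset]
      exact ⟨hH.1.trans (erase_subset g Q), hH.2⟩
    · intro H hH _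
      rw [mem_filter, mem_powerset] at hH
      have := SGL_ph_pos H fun l hl => (hmem l (hH.1 hl)).2.2
      positivity
  calc ∑ K ∈ S, 1 / ph K ≤ ∑ K ∈ S, 2 / Real.log R * ∑ l ∈ K, Real.log l / ph K := sum_le_sum hlog
    _ = 2 / Real.log R * ∑ K ∈ S, ∑ l ∈ K, Real.log l / ph K := by rw [mul_sum]
    _ ≤ 2 / Real.log R * ∑ H ∈ T, 1 / ph H * (Real.log g + C) := by
        refine mul_le_mul_of_nonneg_left (hswap.trans ?_) (by positivity)
        refine sum_le_sum fun H hH => ?_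
        have := hTm H hH
        exact mul_le_mul_of_nonneg_left (hinner H hH) (by positivity)
    _ = 2 / Real.log R * (Real.log g + C) * ∑ H ∈ T, 1 / ph H := by
        rw [← sum_mul]
        ring
    _ ≤ _ := mul_le_mul_of_nonneg_left hTs (by positivity)

end Pool.Agent.PT
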